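import Pool.Agent.N979.P1.Dat

/-!
# The angles of the sectors (PROJECT P1, leaf BND)
-/

set_option autoImplicit false

open Set

namespace Pool.Agent.N703.P1_BND

open Pool.Agent.N979.P1 Pool.Agent.N979.P1.A

/-- the partial sums of the series of the arcus tangens -/
def atn (n : ℕ) (x : ℚ) : ℚ := ∑ k ∈ Finset.range n, (-1) ^ k * x ^ (2 * k + 1) / (2 * k + 1)

/-- the partial sums of the series of the arcus tangens, real arguments -/
noncomputable def atr (n : ℕ) (x : ℝ) : ℝ :=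
  ∑ k ∈ Finset.range n, (-1) ^ k * x ^ (2 * k + 1) / (2 * k + 1)

theorem atn_cast (n : ℕ) (x : ℚ) : ((atn n x : ℚ) : ℝ) = atr n (x : ℝ) := by
  simp [atn, atr]

theorem hasDerivAt_atr (n : ℕ) (x : ℝ) :
    HasDerivAt (atr n) (∑ k ∈ Finset.range n, (-1) ^ k * x ^ (2 * k)) x := by
  unfold atr
  apply HasDerivAt.fun_sum
  intro k _
  have h := ((hasDerivAt_pow (2 * k + 1) x).const_mul ((-1 : ℝ) ^ k)).div_const (2 * (k : ℝ) + 1)
  have hk : (2 * (k : ℝ) + 1) ≠ 0 := by positivity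
  have e : (-1 : ℝ) ^ k * x ^ (2 * k) =
      (-1 : ℝ) ^ k * (((2 * k + 1 : ℕ) : ℝ) * x ^ (2 * k + 1 - 1)) / (2 * (k : ℝ) + 1) := by
    rw [Nat.add_sub_cancel, eq_div_iff hk]
    push_cast
    ring
  rw [e]
  exact h

theorem geom (n : ℕ) (x : ℝ) :
    (∑ k ∈ Finset.range n, (-1) ^ k * x ^ (2 * k)) * (1 + x ^ 2) = 1 - (-1) ^ n * x ^ (2 * n) := by
  induction n with
  | zero => simp
  | succ n ih =>
    rw [Finset.sum_range_succ, add_mul, ih]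
    ring

theorem mono_aux (f f' : ℝ → ℝ) (hf : ∀ x, HasDerivAt f (f' x) x) (h0 : f 0 = 0)
    (hn : ∀ x, 0 ≤ f' x) (x : ℝ) (hx : 0 ≤ x) : 0 ≤ f x := by
  have hm : Monotone f := monotone_of_hasDerivAt_nonneg hf hn
  rw [← h0]
  exact hm hx

theorem le_arctan (n : ℕ) (x : ℝ) (hx : 0 ≤ x) : atr (2 * n) x ≤ Real.arctan x := by
  have h := mono_aux (fun x => Real.arctan x - atr (2 * n) x)
    (fun x => 1 / (1 + x ^ 2) - ∑ k ∈ Finset.range (2 * n), (-1) ^ k * x ^ (2 * k))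
    (fun x => (Real.hasDerivAt_arctan x).sub (hasDerivAt_atr (2 * n) x))
    (by simp [atr]) (fun x => ?_) x hx
  · linarith
  · have hg := geom (2 * n) x
    have hp : 0 < 1 + x ^ 2 := by positivity
    have h1 : (-1 : ℝ) ^ (2 * n) = 1 := by simp [pow_mul]
    rw [h1] at hg
    have h2 : (0 : ℝ) ≤ x ^ (2 * (2 * n)) := by rw [pow_mul]; positivity
    have h3 : ∑ k ∈ Finset.range (2 * n), (-1) ^ k * x ^ (2 * k) ≤ 1 / (1 + x ^ 2) := by
      rw [le_div_iff₀ hp, hg]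
      linarith
    linarith

theorem arctan_le (n : ℕ) (x : ℝ) (hx : 0 ≤ x) : Real.arctan x ≤ atr (2 * n + 1) x := by
  have h := mono_aux (fun x => atr (2 * n + 1) x - Real.arctan x)
    (fun x => ∑ k ∈ Finset.range (2 * n + 1), (-1) ^ k * x ^ (2 * k) - 1 / (1 + x ^ 2))
    (fun x => (hasDerivAt_atr (2 * n + 1) x).sub (Real.hasDerivAt_arctan x))
    (by simp [atr]) (fun x => ?_) x hx
  · linarith
  · have hg := geom (2 * n + 1) x
    have hp : 0 < 1 + x ^ 2 := by positivity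
    have h1 : (-1 : ℝ) ^ (2 * n + 1) = -1 := by simp [pow_succ, pow_mul]
    rw [h1] at hg
    have h2 : (0 : ℝ) ≤ x ^ (2 * (2 * n + 1)) := by rw [pow_mul]; positivity
    have h3 : 1 / (1 + x ^ 2) ≤ ∑ k ∈ Finset.range (2 * n + 1), (-1) ^ k * x ^ (2 * k) := by
      rw [div_le_iff₀ hp, hg]
      linarith
    linarith

theorem bnd (x lo hi : ℚ) (hx : 0 ≤ x) (h1 : lo ≤ atn 14 x) (h2 : atn 15 x ≤ hi) :
    ((lo : ℚ) : ℝ) ≤ Real.arctan ((x : ℚ) : ℝ) ∧ Real.arctan ((x : ℚ) : ℝ) ≤ ((hi : ℚ) : ℝ) := by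
  have hx' : (0 : ℝ) ≤ (x : ℝ) := by exact_mod_cast hx
  have h1' : ((lo : ℚ) : ℝ) ≤ ((atn 14 x : ℚ) : ℝ) := by exact_mod_cast h1
  have h2' : ((atn 15 x : ℚ) : ℝ) ≤ ((hi : ℚ) : ℝ) := by exact_mod_cast h2
  rw [atn_cast] at h1' h2'
  exact ⟨h1'.trans (le_arctan 7 _ hx'), (arctan_le 7 _ hx').trans h2'⟩

theorem arctan_diff (a b : ℚ) (ha : 0 ≤ a) (hb : 0 ≤ b) :
    Real.arctan (b : ℝ) - Real.arctan (a : ℝ) =
      Real.arctan ((((b - a) / (1 + a * b) : ℚ)) : ℝ) := by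
  have ha' : (0 : ℝ) ≤ (a : ℝ) := by exact_mod_cast ha
  have hb' : (0 : ℝ) ≤ (b : ℝ) := by exact_mod_cast hb
  have h : (b : ℝ) * (-(a : ℝ)) < 1 := by
    have := mul_nonneg hb' ha'
    linarith
  have := Real.arctan_add h
  rw [Real.arctan_neg] at this
  rw [sub_eq_add_neg, this]
  congr 1
  push_cast
  congr 1
  ring

theorem dmid (l : Fin 18) (h0 : 0 < l.val) (h1 : l.val < 17) :
    Dl datQ.toDat.t l = Real.arctan ((datQ.t ⟨l.val, h1⟩ : ℚ) : ℝ) -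
      Real.arctan ((datQ.t ⟨l.val - 1, by omega⟩ : ℚ) : ℝ) := by
  unfold Dl up3 lo3
  rw [dif_pos h1, dif_pos h0]
  rfl

theorem dfirst : Dl datQ.toDat.t (0 : Fin 18) = Real.arctan ((datQ.t 0 : ℚ) : ℝ) := by
  unfold Dl up3 lo3
  rw [dif_pos (by decide), dif_neg (by decide)]
  simp only [sub_zero]
  rfl

theorem dlast : Dl datQ.toDat.t (17 : Fin 18) =
    Real.pi / 2 - Real.arctan ((datQ.t 16 : ℚ) : ℝ) := by
  unfold Dl up3 lo3
  rw [dif_neg (by decide), dif_pos (by decide)]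
  rfl

theorem tpos : ∀ i, 0 ≤ datQ.t i := by decide +kernel

theorem cmid : ∀ l : Fin 18, ∀ h0 : 0 < l.val, ∀ h1 : l.val < 17,
    0 ≤ (datQ.t ⟨l.val, h1⟩ - datQ.t ⟨l.val - 1, by omega⟩) /
      (1 + datQ.t ⟨l.val - 1, by omega⟩ * datQ.t ⟨l.val, h1⟩) ∧
    dlo l ≤ atn 14 ((datQ.t ⟨l.val, h1⟩ - datQ.t ⟨l.val - 1, by omega⟩) /
      (1 + datQ.t ⟨l.val - 1, by omega⟩ * datQ.t ⟨l.val, h1⟩)) ∧
    atn 15 ((datQ.t ⟨l.val, h1⟩ - datQ.t ⟨l.val - 1, by omega⟩) /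
      (1 + datQ.t ⟨l.val - 1, by omega⟩ * datQ.t ⟨l.val, h1⟩)) ≤ dhi l := by
  decide +kernel

theorem cfirst : 0 ≤ datQ.t 0 ∧ dlo 0 ≤ atn 14 (datQ.t 0) ∧ atn 15 (datQ.t 0) ≤ dhi 0 := by
  decide +kernel

theorem clast : 0 ≤ (datQ.t 16)⁻¹ ∧ dlo 17 ≤ atn 14 (datQ.t 16)⁻¹ ∧
    atn 15 (datQ.t 16)⁻¹ ≤ dhi 17 := by
  decide +kernel

/-- BND: the angles of the sectors -/
theorem main : S_BND := by
  intro l
  by_cases h0 : 0 < l.val
  · by_cases h1 : l.val < 17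
    · rw [dmid l h0 h1, arctan_diff _ _ (tpos _) (tpos _)]
      obtain ⟨c1, c2, c3⟩ := cmid l h0 h1
      exact bnd _ _ _ c1 c2 c3
    · have hl : l = 17 := by
        apply Fin.ext
        have := l.isLt
        change l.val = 17
        omega
      subst hl
      rw [dlast]
      obtain ⟨c1, c2, c3⟩ := clast
      have hp : (0 : ℝ) < ((datQ.t 16 : ℚ) : ℝ) := by
        have : (0 : ℚ) < datQ.t 16 := by decide +kernel
        exact_mod_cast this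
      rw [← Real.arctan_inv_of_pos hp]
      have := bnd _ _ _ c1 c2 c3
      rw [Rat.cast_inv] at this
      exact this
  · have hl : l = 0 := by
      apply Fin.ext
      change l.val = 0
      omega
    subst hl
    rw [dfirst]
    obtain ⟨c1, c2, c3⟩ := cfirst
    exact bnd _ _ _ c1 c2 c3

end Pool.Agent.N703.P1_BND
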